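import Pool.Agent.Helper53.Pq.Goals

/-!
# Packet NEAR (MP_705522_gt): laws of partial sums with moments, and the estimate near the
critical direction
-/

namespace Pool.Agent.Helper58.Pq

open MeasureTheory Set
open Pool.Agent.Helper28.NO (Lf Ok IsLaw ph hm mu muZ mix ok_aff Lf_aff isLaw_one isLaw_ph
  ok_cos_cos Lf_cos_cos isLaw_cos)
open Pool.Agent.Helper53.Pq

lemma int_of_four {μ : Measure ℝ} [IsProbabilityMeasure μ]
    (h4 : Integrable (fun y : ℝ => y ^ 4) μ) :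
    Integrable (fun y : ℝ => y) μ ∧ Integrable (fun y : ℝ => y ^ 2) μ := by
  have hd : Integrable (fun y : ℝ => 1 + y ^ 4) μ := (integrable_const 1).add h4
  constructor
  · refine Integrable.mono' hd (by fun_prop) (Filter.Eventually.of_forall fun y => ?_)
    rw [Real.norm_eq_abs]
    have h1 := sq_nonneg (|y| - 1)
    have h2 := sq_nonneg (|y| ^ 2 - 1)
    have h3 : |y| ^ 4 = y ^ 4 := by
      rw [← abs_pow]
      exact abs_of_nonneg (by positivity)
    nlinarith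
  · refine Integrable.mono' hd (by fun_prop) (Filter.Eventually.of_forall fun y => ?_)
    rw [Real.norm_of_nonneg (sq_nonneg y)]
    nlinarith [sq_nonneg (y ^ 2 - 1)]

/-- law of `X + ε X'` -/
noncomputable def mixM (ν₁ ν₂ : Measure ℝ) : Measure ℝ :=
  (2⁻¹ : ENNReal) • (ν₁.prod ν₂).map (fun p : ℝ × ℝ => p.1 + p.2) +
    (2⁻¹ : ENNReal) • (ν₁.prod ν₂).map (fun p : ℝ × ℝ => p.1 - p.2)

lemma mixM_prob (ν₁ ν₂ : Measure ℝ) [IsProbabilityMeasure ν₁] [IsProbabilityMeasure ν₂] :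
    IsProbabilityMeasure (mixM ν₁ ν₂) := by
  have : IsProbabilityMeasure ((ν₁.prod ν₂).map (fun p : ℝ × ℝ => p.1 + p.2)) :=
    Measure.isProbabilityMeasure_map (by fun_prop)
  have : IsProbabilityMeasure ((ν₁.prod ν₂).map (fun p : ℝ × ℝ => p.1 - p.2)) :=
    Measure.isProbabilityMeasure_map (by fun_prop)
  refine ⟨?_⟩
  unfold mixM
  simp only [Measure.add_apply, Measure.smul_apply, measure_univ, smul_eq_mul, mul_one]
  exact ENNReal.inv_two_add_inv_two

lemma half_law {ν₁ ν₂ : Measure ℝ} [IsProbabilityMeasure ν₁] [IsProbabilityMeasure ν₂]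
    (f : ℝ → ℝ) (hf : Measurable f)
    (i1 : Integrable (fun p : ℝ × ℝ => f (p.1 + p.2)) (ν₁.prod ν₂))
    (i2 : Integrable (fun p : ℝ × ℝ => f (p.1 - p.2)) (ν₁.prod ν₂)) :
    Integrable f (mixM ν₁ ν₂) ∧ ∫ x, f x ∂(mixM ν₁ ν₂) =
      ∫ p : ℝ × ℝ, (f (p.1 + p.2) + f (p.1 - p.2)) / 2 ∂(ν₁.prod ν₂) := by
  have iA : Integrable f ((ν₁.prod ν₂).map (fun p : ℝ × ℝ => p.1 + p.2)) := by
    rw [integrable_map_measure hf.aestronglyMeasurable (by fun_prop)]
    exact i1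
  have iB : Integrable f ((ν₁.prod ν₂).map (fun p : ℝ × ℝ => p.1 - p.2)) := by
    rw [integrable_map_measure hf.aestronglyMeasurable (by fun_prop)]
    exact i2
  have jA := iA.smul_measure (c := (2⁻¹ : ENNReal)) (by simp)
  have jB := iB.smul_measure (c := (2⁻¹ : ENNReal)) (by simp)
  refine ⟨jA.add_measure jB, ?_⟩
  unfold mixM
  rw [integral_add_measure jA jB, integral_smul_measure, integral_smul_measure,
    integral_map (by fun_prop) hf.aestronglyMeasurable,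
    integral_map (by fun_prop) hf.aestronglyMeasurable, integral_div, integral_add i1 i2]
  simp only [ENNReal.toReal_inv, ENNReal.toReal_ofNat, smul_eq_mul]
  ring

lemma law_mul {h₁ h₂ : ℝ → ℝ} {ν₁ ν₂ : Measure ℝ} (H₁ : IsLaw h₁ ν₁) (H₂ : IsLaw h₂ ν₂)
    (f₁ : Integrable (fun x : ℝ => x ^ 4) ν₁) (f₂ : Integrable (fun x : ℝ => x ^ 4) ν₂) :
    ∃ ν, IsLaw (fun t => h₁ t * h₂ t) ν ∧ Integrable (fun x : ℝ => x ^ 4) ν ∧
      ∫ x, x ^ 2 ∂ν = ∫ x, x ^ 2 ∂ν₁ + ∫ x, x ^ 2 ∂ν₂ ∧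
      ∫ x, x ^ 4 ∂ν = ∫ x, x ^ 4 ∂ν₁ + 6 * ((∫ x, x ^ 2 ∂ν₁) * ∫ x, x ^ 2 ∂ν₂) +
        ∫ x, x ^ 4 ∂ν₂ := by
  have := H₁.prob
  have := H₂.prob
  have i1 : Integrable (fun p : ℝ × ℝ => p.1) (ν₁.prod ν₂) := H₁.int.comp_fst ν₂
  have i2 : Integrable (fun p : ℝ × ℝ => p.2) (ν₁.prod ν₂) := H₂.int.comp_snd ν₁
  have a2 : Integrable (fun p : ℝ × ℝ => p.1 ^ 2) (ν₁.prod ν₂) :=
    (int_of_four f₁).2.comp_fst ν₂
  have b2 : Integrable (fun p : ℝ × ℝ => p.2 ^ 2) (ν₁.prod ν₂) :=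
    (int_of_four f₂).2.comp_snd ν₁
  have a4 : Integrable (fun p : ℝ × ℝ => p.1 ^ 4) (ν₁.prod ν₂) := f₁.comp_fst ν₂
  have b4 : Integrable (fun p : ℝ × ℝ => p.2 ^ 4) (ν₁.prod ν₂) := f₂.comp_snd ν₁
  have c4 : Integrable (fun p : ℝ × ℝ => p.1 ^ 2 * p.2 ^ 2) (ν₁.prod ν₂) :=
    (int_of_four f₁).2.mul_prod (int_of_four f₂).2
  have D2 : ∀ g : ℝ × ℝ → ℝ, Measurable g → (∀ p, |g p| ≤ 2 * (p.1 ^ 2 + p.2 ^ 2)) →
      Integrable g (ν₁.prod ν₂) := by
    intro g hg hb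
    exact Integrable.mono' ((a2.add b2).const_mul 2) hg.aestronglyMeasurable
      (Filter.Eventually.of_forall hb)
  have D4 : ∀ g : ℝ × ℝ → ℝ, Measurable g → (∀ p, |g p| ≤ 8 * (p.1 ^ 4 + p.2 ^ 4)) →
      Integrable g (ν₁.prod ν₂) := by
    intro g hg hb
    exact Integrable.mono' ((a4.add b4).const_mul 8) hg.aestronglyMeasurable
      (Filter.Eventually.of_forall hb)
  have q8 : ∀ x y : ℝ, |(x + y) ^ 4| ≤ 8 * (x ^ 4 + y ^ 4) := by
    intro x y
    rw [abs_of_nonneg (by positivity)]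
    have e1 : (x + y) ^ 2 ≤ 2 * (x ^ 2 + y ^ 2) := by nlinarith [sq_nonneg (x - y)]
    have e2 : ((x + y) ^ 2) ^ 2 ≤ (2 * (x ^ 2 + y ^ 2)) ^ 2 :=
      pow_le_pow_left₀ (sq_nonneg _) e1 2
    nlinarith [sq_nonneg (x ^ 2 - y ^ 2)]
  have q2 : ∀ x y : ℝ, |(x + y) ^ 2| ≤ 2 * (x ^ 2 + y ^ 2) := by
    intro x y
    rw [abs_of_nonneg (by positivity)]
    nlinarith [sq_nonneg (x - y)]
  have L1 := half_law (ν₁ := ν₁) (ν₂ := ν₂) (fun x => x) measurable_id (i1.add i2) (i1.sub i2)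
  have L2 := half_law (ν₁ := ν₁) (ν₂ := ν₂) (fun x => x ^ 2) (by fun_prop)
    (D2 _ (by fun_prop) fun p => q2 _ _)
    (D2 _ (by fun_prop) fun p => by
      have := q2 p.1 (-p.2)
      rw [neg_sq] at this
      rw [sub_eq_add_neg]
      exact this)
  have L4 := half_law (ν₁ := ν₁) (ν₂ := ν₂) (fun x => x ^ 4) (by fun_prop)
    (D4 _ (by fun_prop) fun p => q8 _ _)
    (D4 _ (by fun_prop) fun p => by
      have := q8 p.1 (-p.2)
      rw [show (-p.2) ^ 4 = p.2 ^ 4 by ring] at this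
      rw [sub_eq_add_neg]
      exact this)
  refine ⟨mixM ν₁ ν₂, ⟨mixM_prob ν₁ ν₂, L1.1, ?_⟩, L4.1, ?_, ?_⟩
  · intro t
    have bd2 : ∀ (f : ℝ × ℝ → ℝ), Measurable f →
        Integrable (fun x => Real.cos (f x)) (ν₁.prod ν₂) := by
      intro f hf
      refine Integrable.mono' (integrable_const (1 : ℝ))
        (Real.measurable_cos.comp hf).aestronglyMeasurable ?_
      exact Filter.Eventually.of_forall fun x => by
        rw [Real.norm_eq_abs]; exact Real.abs_cos_le_one _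
    have LC := half_law (ν₁ := ν₁) (ν₂ := ν₂) (fun x => Real.cos (t * x)) (by fun_prop)
      (bd2 _ (by fun_prop)) (bd2 _ (by fun_prop))
    rw [LC.2, H₁.eq t, H₂.eq t, ← integral_prod_mul]
    refine integral_congr_ae (Filter.Eventually.of_forall fun p => ?_)
    simp only
    rw [mul_add t, mul_sub t, Real.cos_add, Real.cos_sub]
    ring
  · rw [L2.2]
    have e : ∀ p : ℝ × ℝ, ((p.1 + p.2) ^ 2 + (p.1 - p.2) ^ 2) / 2 = p.1 ^ 2 + p.2 ^ 2 := by
      intro p; ring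
    simp_rw [e]
    rw [integral_add a2 b2, integral_fun_fst (fun x : ℝ => x ^ 2),
      integral_fun_snd (fun x : ℝ => x ^ 2)]
    simp
  · rw [L4.2]
    have e : ∀ p : ℝ × ℝ, ((p.1 + p.2) ^ 4 + (p.1 - p.2) ^ 4) / 2 =
        p.1 ^ 4 + 6 * (p.1 ^ 2 * p.2 ^ 2) + p.2 ^ 4 := by
      intro p; ring
    simp_rw [e]
    have s1 : Integrable (fun p : ℝ × ℝ => p.1 ^ 4 + 6 * (p.1 ^ 2 * p.2 ^ 2)) (ν₁.prod ν₂) :=
      a4.add (c4.const_mul 6)
    rw [integral_add s1 b4, integral_add a4 (c4.const_mul 6), integral_const_mul,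
      integral_fun_fst (fun x : ℝ => x ^ 4), integral_fun_snd (fun x : ℝ => x ^ 4),
      integral_prod_mul (fun x : ℝ => x ^ 2) (fun x : ℝ => x ^ 2)]
    simp

theorem gLaw : GLaw := by
  classical
  intro μ hμ h4 s2 hs2 hs4 ι S u
  obtain ⟨h1, h2⟩ := int_of_four h4
  induction S using Finset.induction_on with
  | empty =>
    refine ⟨Measure.dirac 0, by simpa using isLaw_one, integrable_dirac (by simp), ?_, ?_⟩
    · rw [integral_dirac]; simp
    · rw [integral_dirac]; simp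
  | insert i S hi ih =>
    obtain ⟨ν, hν, f4, m2, m4⟩ := ih
    have F : Integrable (fun x : ℝ => x ^ 4) (μ.map (fun y => u i * y)) := by
      rw [integrable_map_measure (by fun_prop) (by fun_prop)]
      refine (h4.const_mul (u i ^ 4)).congr (Filter.Eventually.of_forall fun y => ?_)
      simp only [Function.comp]
      ring
    have M2 : ∫ x, x ^ 2 ∂(μ.map (fun y => u i * y)) = u i ^ 2 * s2 := by
      rw [integral_map (by fun_prop) (by fun_prop), ← hs2, ← integral_const_mul]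
      refine integral_congr_ae (Filter.Eventually.of_forall fun y => ?_)
      simp only
      ring
    have M4 : ∫ x, x ^ 4 ∂(μ.map (fun y => u i * y)) ≤ u i ^ 4 * (3 * s2 ^ 2) := by
      rw [integral_map (by fun_prop) (by fun_prop)]
      refine le_trans (le_of_eq ?_) (mul_le_mul_of_nonneg_left hs4 (by positivity))
      rw [← integral_const_mul]
      refine integral_congr_ae (Filter.Eventually.of_forall fun y => ?_)
      simp only
      ring
    obtain ⟨ν', hν', g4, n2, n4⟩ := law_mul (isLaw_ph h1 (u i)) hν F f4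
    refine ⟨ν', ?_, g4, ?_, ?_⟩
    · simp_rw [Finset.prod_insert hi]
      exact hν'
    · rw [n2, M2, m2, Finset.sum_insert hi]
      ring
    · rw [n4, M2, m2, Finset.sum_insert hi]
      nlinarith [M4, m4]

/-- `E|aY₁ + bY₂ + X|` by conditioning on `X`. -/
lemma key {μ : Measure ℝ} [IsProbabilityMeasure μ] (hμ : Integrable (fun y : ℝ => y) μ)
    {h : ℝ → ℝ} {ν : Measure ℝ} (H : IsLaw h ν) (a b : ℝ) :
    Integrable (fun w : (ℝ × ℝ) × ℝ =>
      (max |a * w.1.1 + b * w.1.2| |w.2| + max |a * w.1.1 - b * w.1.2| |w.2|) / 2)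
      ((μ.prod μ).prod ν) ∧
    Lf (fun t => ph μ (a * t) * (ph μ (b * t) * h t)) =
      ∫ w : (ℝ × ℝ) × ℝ,
        (max |a * w.1.1 + b * w.1.2| |w.2| + max |a * w.1.1 - b * w.1.2| |w.2|) / 2
        ∂((μ.prod μ).prod ν) := by
  have := H.prob
  have Y1 : Integrable (fun p : ℝ × ℝ => p.1) (μ.prod μ) := hμ.comp_fst μ
  have Y2 : Integrable (fun p : ℝ × ℝ => p.2) (μ.prod μ) := hμ.comp_snd μ
  have iA : Integrable (fun w : (ℝ × ℝ) × ℝ => a * w.1.1 + b * w.1.2) ((μ.prod μ).prod ν) :=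
    ((Y1.const_mul a).add (Y2.const_mul b)).comp_fst ν
  have iD : Integrable (fun w : (ℝ × ℝ) × ℝ => a * w.1.1 - b * w.1.2) ((μ.prod μ).prod ν) :=
    ((Y1.const_mul a).sub (Y2.const_mul b)).comp_fst ν
  have iX : Integrable (fun w : (ℝ × ℝ) × ℝ => w.2) ((μ.prod μ).prod ν) :=
    H.int.comp_snd (μ.prod μ)
  have I : Integrable (fun w : (ℝ × ℝ) × ℝ =>
      (max |a * w.1.1 + b * w.1.2| |w.2| + max |a * w.1.1 - b * w.1.2| |w.2|) / 2)
      ((μ.prod μ).prod ν) :=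
    ((iA.abs.sup iX.abs).add (iD.abs.sup iX.abs)).div_const 2
  refine ⟨I, ?_⟩
  have hk : ∀ w : (ℝ × ℝ) × ℝ,
      (fun t => Real.cos (a * w.1.1 * t) * Real.cos (b * w.1.2 * t) * Real.cos (w.2 * t)) =
      fun t => 1 / 2 * (Real.cos ((a * w.1.1 + b * w.1.2) * t) * Real.cos (w.2 * t)) +
        1 / 2 * (Real.cos ((a * w.1.1 - b * w.1.2) * t) * Real.cos (w.2 * t)) := by
    intro p
    ext t
    rw [add_mul, sub_mul, Real.cos_add, Real.cos_sub]
    ring
  have kok : ∀ w : (ℝ × ℝ) × ℝ,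
      Ok (fun t => Real.cos (a * w.1.1 * t) * Real.cos (b * w.1.2 * t) * Real.cos (w.2 * t)) := by
    intro w
    rw [hk w]
    refine ok_aff (ok_cos_cos _ _) (ok_cos_cos _ _) (by norm_num) (fun t => ?_)
    have e := congrFun (hk w) t
    rw [← e, abs_mul, abs_mul]
    exact mul_le_one₀ (mul_le_one₀ (Real.abs_cos_le_one _) (abs_nonneg _) (Real.abs_cos_le_one _))
      (abs_nonneg _) (Real.abs_cos_le_one _)
  have kLf : ∀ w : (ℝ × ℝ) × ℝ,
      Lf (fun t => Real.cos (a * w.1.1 * t) * Real.cos (b * w.1.2 * t) * Real.cos (w.2 * t)) =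
      (max |a * w.1.1 + b * w.1.2| |w.2| + max |a * w.1.1 - b * w.1.2| |w.2|) / 2 := by
    intro w
    rw [hk w, Lf_aff (ok_cos_cos _ _) (ok_cos_cos _ _) (by norm_num), Lf_cos_cos, Lf_cos_cos]
    ring
  have hm : Measurable (Function.uncurry fun (w : (ℝ × ℝ) × ℝ) (t : ℝ) =>
      Real.cos (a * w.1.1 * t) * Real.cos (b * w.1.2 * t) * Real.cos (w.2 * t)) := by
    unfold Function.uncurry
    fun_prop
  have M := (mix ((μ.prod μ).prod ν) _ hm kok (I.congr (Filter.Eventually.of_forall fun w =>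
    (kLf w).symm))).2
  have e1 : (fun t => ∫ w : (ℝ × ℝ) × ℝ,
      Real.cos (a * w.1.1 * t) * Real.cos (b * w.1.2 * t) * Real.cos (w.2 * t)
      ∂((μ.prod μ).prod ν)) = fun t => ph μ (a * t) * (ph μ (b * t) * h t) := by
    ext t
    have e2 : ∫ w : (ℝ × ℝ) × ℝ,
        Real.cos (a * w.1.1 * t) * Real.cos (b * w.1.2 * t) * Real.cos (w.2 * t)
        ∂((μ.prod μ).prod ν) =
        (∫ p : ℝ × ℝ, Real.cos (a * p.1 * t) * Real.cos (b * p.2 * t) ∂(μ.prod μ)) *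
          ∫ x, Real.cos (x * t) ∂ν :=
      integral_prod_mul (fun p : ℝ × ℝ => Real.cos (a * p.1 * t) * Real.cos (b * p.2 * t))
        (fun x : ℝ => Real.cos (x * t))
    have e3 : ∫ p : ℝ × ℝ, Real.cos (a * p.1 * t) * Real.cos (b * p.2 * t) ∂(μ.prod μ) =
        (∫ y, Real.cos (a * y * t) ∂μ) * ∫ y, Real.cos (b * y * t) ∂μ :=
      integral_prod_mul (fun y => Real.cos (a * y * t)) (fun y => Real.cos (b * y * t))
    rw [e2, e3, ph, ph, H.eq t]
    have s : ∀ c : ℝ, (∫ y, Real.cos (c * y * t) ∂μ) = ∫ y, Real.cos (c * t * y) ∂μ := by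
      intro c
      congr 1
      ext y
      ring_nf
    rw [s, s]
    simp_rw [mul_comm t]
    ring
  rw [← e1, M]
  exact integral_congr_ae (Filter.Eventually.of_forall fun w => kLf w)

theorem gNear : GNear := by
  intro θ μ B h ν H f4 a b R hb hab hR m2 m4
  have := B.prob
  have := H.prob
  obtain ⟨hY, -⟩ := int_of_four B.int4
  obtain ⟨-, f2⟩ := int_of_four f4
  have ha : 0 < a := lt_of_lt_of_le hb hab
  have Y1 : Integrable (fun p : ℝ × ℝ => p.1) (μ.prod μ) := hY.comp_fst μ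
  have Y2 : Integrable (fun p : ℝ × ℝ => p.2) (μ.prod μ) := hY.comp_snd μ
  have P1 : ∀ᵐ p : ℝ × ℝ ∂(μ.prod μ), 0 < p.1 :=
    Measure.quasiMeasurePreserving_fst.ae B.pos
  have P2 : ∀ᵐ p : ℝ × ℝ ∂(μ.prod μ), 0 < p.2 :=
    Measure.quasiMeasurePreserving_snd.ae B.pos
  have iA : Integrable (fun p : ℝ × ℝ => a * p.1 + b * p.2) (μ.prod μ) :=
    (Y1.const_mul a).add (Y2.const_mul b)
  have iD : Integrable (fun p : ℝ × ℝ => |a * p.1 - b * p.2|) (μ.prod μ) :=
    ((Y1.const_mul a).sub (Y2.const_mul b)).abs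
  have iM : Integrable (fun p : ℝ × ℝ => max (a * p.1) (b * p.2)) (μ.prod μ) :=
    (Y1.const_mul a).sup (Y2.const_mul b)
  obtain ⟨I, E⟩ := key hY H a b
  -- signs
  have hhm : 0 < hm (1 / θ) a b := by
    unfold hm
    have := Real.rpow_pos_of_pos ha (-(1 / θ))
    have := Real.rpow_pos_of_pos hb (-(1 / θ))
    positivity
  have hθ : 0 < θ := by linarith [B.lo]
  have h2 : (1 : ℝ) < (2 : ℝ) ^ θ := Real.one_lt_rpow (by norm_num) hθ
  have hL : 0 < Lg θ a b := by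
    unfold Lg
    have : 0 < (2 : ℝ) ^ θ - 1 := by linarith
    positivity
  have hK : 0 ≤ Kf θ a b := by
    unfold Kf
    positivity
  -- pointwise in `x`
  have hx : ∀ x : ℝ, (a ^ (1 / θ) + b ^ (1 / θ)) ^ θ + 1 / 2 * (Kf θ a b *
      (x ^ 2 / (2 * Lg θ a b) - x ^ 4 / (32 * Lg θ a b ^ 3))) ≤
      ∫ p : ℝ × ℝ, (max |a * p.1 + b * p.2| |x| + max |a * p.1 - b * p.2| |x|) / 2
        ∂(μ.prod μ) := by
    intro x
    have N := B.near a b |x| hb hab (abs_nonneg x)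
    rw [sq_abs, show |x| ^ 4 = x ^ 4 by
      rw [← abs_pow]; exact abs_of_nonneg (by positivity)] at N
    have iN : Integrable (fun p : ℝ × ℝ => max 0 (|x| - |a * p.1 - b * p.2|)) (μ.prod μ) :=
      (integrable_const (0 : ℝ)).sup ((integrable_const |x|).sub iD)
    have iT : Integrable (fun p : ℝ × ℝ =>
        (max |a * p.1 + b * p.2| |x| + max |a * p.1 - b * p.2| |x|) / 2) (μ.prod μ) :=
      ((iA.abs.sup (integrable_const _)).add (iD.sup (integrable_const _))).div_const 2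
    have e : ∫ p : ℝ × ℝ, (max (a * p.1) (b * p.2) +
        1 / 2 * max 0 (|x| - |a * p.1 - b * p.2|)) ∂(μ.prod μ) =
        (a ^ (1 / θ) + b ^ (1 / θ)) ^ θ +
          1 / 2 * ∫ p : ℝ × ℝ, max 0 (|x| - |a * p.1 - b * p.2|) ∂(μ.prod μ) := by
      rw [integral_add iM (iN.const_mul _), integral_const_mul, B.max_eq a b ha.le hb.le]
    calc _ ≤ ∫ p : ℝ × ℝ, (max (a * p.1) (b * p.2) +
        1 / 2 * max 0 (|x| - |a * p.1 - b * p.2|)) ∂(μ.prod μ) := by rw [e]; linarith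
      _ ≤ _ := by
        refine integral_mono_ae (iM.add (iN.const_mul _)) iT ?_
        filter_upwards [P1, P2] with p h1 h2
        have := mul_pos ha h1
        have := mul_pos hb h2
        show max (a * p.1) (b * p.2) + 1 / 2 * max 0 (|x| - |a * p.1 - b * p.2|) ≤
          (max |a * p.1 + b * p.2| |x| + max |a * p.1 - b * p.2| |x|) / 2
        have k1 := le_max_left |a * p.1 + b * p.2| |x|
        have k3 := le_abs_self (a * p.1 + b * p.2)
        have k2 : |a * p.1 - b * p.2| + max 0 (|x| - |a * p.1 - b * p.2|) =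
            max |a * p.1 - b * p.2| |x| := by
          rcases le_total |x| |a * p.1 - b * p.2| with h | h
          · rw [max_eq_left h, max_eq_left (by linarith)]
            ring
          · rw [max_eq_right h, max_eq_right (by linarith)]
            ring
        rw [← k2]
        have k4 : 2 * max (a * p.1) (b * p.2) = (a * p.1 + b * p.2) + |a * p.1 - b * p.2| := by
          rcases le_total (a * p.1) (b * p.2) with h | h
          · rw [max_eq_right h, abs_of_nonpos (by linarith)]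
            ring
          · rw [max_eq_left h, abs_of_nonneg (by linarith)]
            ring
        linarith
  have j1 : Integrable (fun x : ℝ => x ^ 2 / (2 * Lg θ a b) - x ^ 4 / (32 * Lg θ a b ^ 3)) ν :=
    (f2.div_const _).sub (f4.div_const _)
  have j2 : Integrable (fun x : ℝ => (a ^ (1 / θ) + b ^ (1 / θ)) ^ θ + 1 / 2 * (Kf θ a b *
      (x ^ 2 / (2 * Lg θ a b) - x ^ 4 / (32 * Lg θ a b ^ 3)))) ν :=
    (integrable_const _).add ((j1.const_mul _).const_mul _)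
  have Ival : ∫ x : ℝ, ((a ^ (1 / θ) + b ^ (1 / θ)) ^ θ + 1 / 2 * (Kf θ a b *
      (x ^ 2 / (2 * Lg θ a b) - x ^ 4 / (32 * Lg θ a b ^ 3)))) ∂ν =
      (a ^ (1 / θ) + b ^ (1 / θ)) ^ θ + 1 / 2 * (Kf θ a b *
      ((1 + vv θ) * R / (2 * Lg θ a b) - (∫ x, x ^ 4 ∂ν) / (32 * Lg θ a b ^ 3))) := by
    rw [integral_add (integrable_const _) ((j1.const_mul _).const_mul _), integral_const_mul,
      integral_const_mul, integral_sub (f2.div_const _) (f4.div_const _), integral_div,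
      integral_div, m2]
    simp
  have step : ∫ x : ℝ, ((a ^ (1 / θ) + b ^ (1 / θ)) ^ θ + 1 / 2 * (Kf θ a b *
      (x ^ 2 / (2 * Lg θ a b) - x ^ 4 / (32 * Lg θ a b ^ 3)))) ∂ν ≤
      ∫ w : (ℝ × ℝ) × ℝ,
        (max |a * w.1.1 + b * w.1.2| |w.2| + max |a * w.1.1 - b * w.1.2| |w.2|) / 2
        ∂((μ.prod μ).prod ν) := by
    rw [integral_prod_symm _ I]
    exact integral_mono j2 I.integral_prod_right hx
  rw [E]
  refine le_trans ?_ step
  rw [Ival]
  have c1 : (∫ x, x ^ 4 ∂ν) / (32 * Lg θ a b ^ 3) ≤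
      3 * (1 + vv θ) ^ 2 * R ^ 2 / (32 * Lg θ a b ^ 3) :=
    div_le_div_of_nonneg_right m4 (by positivity)
  have c2 := mul_le_mul_of_nonneg_left (sub_le_sub_left c1 ((1 + vv θ) * R / (2 * Lg θ a b))) hK
  linarith

end Pool.Agent.Helper58.Pq
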